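import Pool.Agent.CFZ.All

/-!
MP_3193e4_lc, full answer: a structure satisfying ZF + DC in which every set of reals is Miller
measurable and some set of reals does not have the Baire property.
-/

namespace Pool.Agent.Results.MP_3193e4_lc.MillerNotBaire

open Pool.Agent.CFZ

/-- There is a model of ZF + DC in which every set of functions from omega to omega is Miller
measurable and some set of such functions does not have the Baire property. -/
theorem result : ∃ (M : Type) (E : M → M → Prop), ZF E ∧ DepCh E ∧ MM E ∧ NotBP E :=
  all_FIN

end Pool.Agent.Results.MP_3193e4_lc.MillerNotBaire
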